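import Pool.Agent.H45.TR.Minor
import Pool.Agent.H31.Q.Defs
import Pool.Agent.H77.Q.Defs

set_option autoImplicit false

/-!
The sides of the words of a global code give sides of the words of its rooted minors
(MP_a46c6f_co, full Q1).
-/

namespace Pool.Agent.H84.Q

open Finset Pool.Agent.H98.Code Pool.Agent.H26.TR Pool.Agent.H45.TR

variable {V : Type} [Fintype V] [DecidableEq V]
variable {L : Submodule (ZMod 2) (V → K)} {e : V} {D : V → K} {P Q : Finset (Finset V)}
  {h : Finset V → V}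

/-- `u` is a lift of a word of the minor -/
def Lift (L : Submodule (ZMod 2) (V → K)) (D : V → K) (Q : Finset (Finset V))
    (h : Finset V → V) (u : V → K) : Prop :=
  u ∈ L ∧ ∀ v, v ∉ Set.range (Subtype.val : W Q → V) → kf (u v) (sg D Q h v) = 0

/-- the sides of the minor -/
def SB (L : Submodule (ZMod 2) (V → K)) (e : V) (D : V → K) (Q : Finset (Finset V))
    (h : Finset V → V) (S : (V → K) → Finset V → Prop) (a : W Q → K) (Y : Finset (W Q)) : Prop :=
  ∃ u, Lift L D Q h u ∧ a = (fun w : W Q => u w) ∧ u e = 0 ∧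
    ∃ Z : Finset V, S u Z ∧ e ∉ Z ∧ (∀ v ∈ Z, v ∈ Set.range (Subtype.val : W Q → V)) ∧
      ∀ y : W Q, y ∈ Y ↔ (y : V) ∈ Z

omit [Fintype V] in
theorem Lift.add {u w : V → K} (hu : Lift L D Q h u) (hw : Lift L D Q h w) :
    Lift L D Q h (u + w) := by
  refine ⟨L.add_mem hu.1 hw.1, fun v hv => ?_⟩
  rw [Pi.add_apply, kf_add_left, hu.2 v hv, hw.2 v hv, add_zero]

section
variable (hiso : ∀ u ∈ L, ∀ w ∈ L, form u w = 0) (hP : Parts L e D P) (hQ : Q ⊆ P)
  (hl : ∀ v, v ≠ e → (D v).1 = 1) (hh : ∀ M ∈ Q, h M ∈ M) (heW : ∀ M ∈ Q, e ∉ M)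


include hiso hP hQ hl hh in
theorem lift_zero {u : V → K} (hu : Lift L D Q h u) (hue : u e = 0)
    (hr : ∀ w : W Q, u w = 0) : u = 0 := by
  have hue1 : (u e).1 = 0 := by rw [hue]; rfl
  have hle : ∀ v, v ∉ Set.range (Subtype.val : W Q → V) → u v = 0 ∨ u v = D v :=
    fun v hv => le_D hiso hP hQ hl hh hu.1 hue1 hu.2 hv
  have hKD : KD L D e u := by
    refine ⟨hu.1, ?_, Or.inl hue⟩
    intro v hv
    by_cases hvW : v ∈ Set.range (Subtype.val : W Q → V)
    · obtain ⟨w, rfl⟩ := hvW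
      exact Or.inl (hr w)
    · exact hle v hvW
  funext v
  by_cases hvW : v ∈ Set.range (Subtype.val : W Q → V)
  · obtain ⟨w, rfl⟩ := hvW
    exact hr w
  · obtain ⟨M, hM, hvM⟩ := (nmem_range_iff Q v).1 hvW
    have hv : v ≠ e := fun h0 => hP.nmem M (hQ hM) (h0 ▸ hvM)
    have hh0 : u (h M) = 0 := eq_zero_h hiso hP hQ hl hh hu.1 hue1 hu.2 hM
    rcases hP.union u hKD M (hQ hM) with h1 | h1
    · exact absurd hh0 (Pool.Agent.H26.TR.mem_sup.1 (h1 (hh M hM))).2
    · by_contra hne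
      exact Finset.disjoint_left.1 h1 hvM (Pool.Agent.H26.TR.mem_sup.2 ⟨hv, hne⟩)

include hiso hP hQ hl hh in
theorem lift_uniq {u w : V → K} (hu : Lift L D Q h u) (hw : Lift L D Q h w) (hue : u e = 0)
    (hwe : w e = 0) (hr : ∀ x : W Q, u x = w x) : u = w := by
  have h1 := lift_zero hiso hP hQ hl hh (hu.add hw) (by rw [Pi.add_apply, hue, hwe, add_zero])
    (fun x => by rw [Pi.add_apply, hr x, k_add_self])
  rw [w_add_eq_iff, zero_add] at h1
  exact h1

include hiso hP hQ hl hh heW in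
/-- a splitting of a lift is a splitting in the minor -/
theorem splits_minor {u : V → K} (hu : Lift L D Q h u) (hue : u e = 0) {g : V}
    (hg : Splits L u g) : ∃ g' : W Q, Splits (N L D Q h) (fun w : W Q => u w) g' := by
  classical
  obtain ⟨c₁, hc₁, c₂, hc₂, hsum, hg1, hg2, hd⟩ := hg
  have hus := hu.2
  have hv1 : ∀ v, v ≠ g → c₁ v = 0 ∨ c₁ v = u v := by
    intro v hv
    rcases hd v hv with h1 | h1
    · exact Or.inl h1
    · right
      rw [← hsum, Pi.add_apply, h1, add_zero]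
  have hv2 : ∀ v, v ≠ g → c₂ v = 0 ∨ c₂ v = u v := by
    intro v hv
    rcases hd v hv with h1 | h1
    · right
      rw [← hsum, Pi.add_apply, h1, zero_add]
    · exact Or.inl h1
  have hgW : g ∈ Set.range (Subtype.val : W Q → V) := by
    by_contra hgW
    obtain ⟨M, hM, hgM⟩ := (nmem_range_iff Q g).1 hgW
    have hge : g ≠ e := fun h0 => heW M hM (h0 ▸ hgM)
    have key : ∀ c : V → K, c ∈ L → c g = z → (∀ v, v ≠ g → c v = 0 ∨ c v = u v) →
        g ≠ h M ∧ c (h M) ≠ 0 := by
      intro c hc hcg hcv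
      have hce : c e = 0 := by
        rcases hcv e (Ne.symm hge) with h1 | h1
        · exact h1
        · rw [h1, hue]
      have h0 := hiso c hc _ (hP.word M (hQ hM))
      unfold form at h0
      rw [← Finset.add_sum_erase _ _ (Finset.mem_univ g)] at h0
      have hg3 : kf (c g) (pw D e M g) = 1 := by
        unfold pw
        rw [if_neg hge, if_pos hgM, hcg, kf_z_left]
        exact hl g hge
      rw [hg3] at h0
      by_contra hcon
      have hrest : ∑ x ∈ Finset.univ.erase g, kf (c x) (pw D e M x) = 0 := by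
        apply Finset.sum_eq_zero
        intro x hx
        have hxg : x ≠ g := Finset.ne_of_mem_erase hx
        by_cases hxe : x = e
        · rw [hxe, hce, kf_zero_left]
        · unfold pw
          rw [if_neg hxe]
          by_cases hxM : x ∈ M
          · rw [if_pos hxM]
            by_cases hxh : x = h M
            · have hc0 : c (h M) = 0 := by
                by_contra hne
                apply hcon
                exact ⟨fun h1 => hxg (hxh.trans h1.symm), hne⟩
              rw [hxh, hc0, kf_zero_left]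
            · rcases hcv x hxg with h1 | h1
              · rw [h1, kf_zero_left]
              · rw [h1, ← sg_ne hP hQ hh hM hxM hxh]
                exact hus x ((nmem_range_iff Q x).2 ⟨M, hM, hxM⟩)
          · rw [if_neg hxM, kf_zero_right]
      rw [hrest] at h0
      exact absurd h0 (by decide)
    obtain ⟨h1, h2⟩ := key c₁ hc₁ hg1 hv1
    obtain ⟨_, h3⟩ := key c₂ hc₂ hg2 hv2
    rcases hd (h M) (Ne.symm h1) with h4 | h4
    · exact h2 h4
    · exact h3 h4
  obtain ⟨g', rfl⟩ := hgW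
  have hin : ∀ c : V → K, (∀ v, v ≠ (g' : V) → c v = 0 ∨ c v = u v) →
      ∀ v, v ∉ Set.range (Subtype.val : W Q → V) → kf (c v) (sg D Q h v) = 0 := by
    intro c hc v hv
    have hne : v ≠ (g' : V) := by
      rintro rfl
      exact hv ⟨g', rfl⟩
    rcases hc v hne with h1 | h1
    · rw [h1, kf_zero_left]
    · rw [h1]; exact hus v hv
  refine ⟨g', fun w => c₁ w, ⟨c₁, hc₁, hin c₁ hv1, rfl⟩, fun w => c₂ w,
    ⟨c₂, hc₂, hin c₂ hv2, rfl⟩, ?_, hg1, hg2, ?_⟩
  · funext w
    exact congrFun hsum w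
  · intro w hw
    exact hd w (fun h0 => hw (Subtype.ext h0))

include hiso hP hQ hl hh in
/-- a lift with `0` at `e` is `0` or `D` off the range; where it is not `0` the letter is `sg` -/
theorem lift_off {u : V → K} (hu : Lift L D Q h u) (hue : u e = 0) {v : V}
    (hv : v ∉ Set.range (Subtype.val : W Q → V)) (hne : u v ≠ 0) :
    u v = D v ∧ sg D Q h v = D v ∧ v ≠ e := by
  have hue1 : (u e).1 = 0 := by rw [hue]; rfl
  obtain ⟨M, hM, hvM⟩ := (nmem_range_iff Q v).1 hv
  have hve : v ≠ e := fun h0 => hP.nmem M (hQ hM) (h0 ▸ hvM)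
  have h1 : u v = D v := (le_D hiso hP hQ hl hh hu.1 hue1 hu.2 hv).resolve_left hne
  refine ⟨h1, ?_, hve⟩
  refine sg_ne hP hQ hh hM hvM ?_
  rintro rfl
  exact hne (eq_zero_h hiso hP hQ hl hh hu.1 hue1 hu.2 hM)

omit [Fintype V] in
theorem lift_part {u k' : V → K} (hu : Lift L D Q h u) {Z : Finset V}
    (hZ : ∀ v ∈ Z, v ∈ Set.range (Subtype.val : W Q → V)) (hk' : k' ∈ L)
    (h2 : ∀ v, u v = 0 → v ∉ Z → k' v = 0) (h3 : ∀ v, u v ≠ 0 → k' v = 0 ∨ k' v = u v) :
    Lift L D Q h k' := by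
  refine ⟨hk', fun v hv => ?_⟩
  have hvZ : v ∉ Z := fun hvZ => hv (hZ v hvZ)
  by_cases huv : u v = 0
  · rw [h2 v huv hvZ, kf_zero_left]
  · rcases h3 v huv with h4 | h4
    · rw [h4, kf_zero_left]
    · rw [h4]
      exact hu.2 v hv

include hiso hP hQ hl hh in
theorem lift_le {u k : V → K} (hu : Lift L D Q h u) (hue : u e = 0) (hk : Lift L D Q h k)
    (h1 : ∀ w : W Q, u w ≠ 0 → k w = 0 ∨ k w = u w) : ∀ v, u v ≠ 0 → k v = 0 ∨ k v = u v := by
  intro v hv
  by_cases hvW : v ∈ Set.range (Subtype.val : W Q → V)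
  · obtain ⟨w, rfl⟩ := hvW
    exact h1 w hv
  · obtain ⟨e1, e2, e3⟩ := lift_off hiso hP hQ hl hh hu hue hvW hv
    have h2 := hk.2 v hvW
    rw [kf_eq_zero_iff _ _ (by rw [e2, ← e1]; exact hv), e2, ← e1] at h2
    exact h2

include hiso hP hQ hl hh in
/-- own places of the side without `e` of an irreducible unsplit word lie in the range, or the word
splits at `e` in the minor -/
theorem own_in {S : (V → K) → Finset V → Prop} (hS : Pool.Agent.H31.Q.Sides L S) {u : V → K}
    (hu : Lift L D Q h u) (hue : u e = 0)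
    (hirr : Pool.Agent.H77.Q.Irr (N L D Q h) (fun w : W Q => u w)) {Z : Finset V}
    (hSZ : S u Z) (heZ : e ∉ Z) :
    (∀ v ∈ Z, v ∈ Set.range (Subtype.val : W Q → V)) ∨
      Splits (N L D Q h) (fun w : W Q => u w) ⟨e, heW⟩ := by
  classical
  by_cases hall : ∀ v ∈ Z, v ∈ Set.range (Subtype.val : W Q → V)
  · exact Or.inl hall
  right
  push Not at hall
  obtain ⟨v, hvZ, hvW⟩ := hall
  obtain ⟨M, hM, hvM⟩ := (nmem_range_iff Q v).1 hvW
  have hve : v ≠ e := fun h0 => heZ (h0 ▸ hvZ)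
  have huv : u v = 0 := (hS.mem u Z hSZ).2 v hvZ
  have hpe : pw D e M e = z := by unfold pw; rw [if_pos rfl]
  have hpM : ∀ x, x ≠ e → x ∈ M → pw D e M x = D x := by
    intro x hx hxM
    unfold pw
    rw [if_neg hx, if_pos hxM]
  have hpn : ∀ x, x ≠ e → x ∉ M → pw D e M x = 0 := by
    intro x hx hxM
    unfold pw
    rw [if_neg hx, if_neg hxM]
  have hMr : ∀ x ∈ M, x ∉ Set.range (Subtype.val : W Q → V) := fun x hx =>
    (nmem_range_iff Q x).2 ⟨M, hM, hx⟩
  obtain ⟨κ, hκ, k1, k2, k3, -, -⟩ := hS.part u Z hSZ (pw D e M) (hP.word M (hQ hM)) (by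
    intro x hx
    have hxe : x ≠ e := by
      rintro rfl
      exact hx hue
    by_cases hxM : x ∈ M
    · right
      rw [hpM x hxe hxM]
      exact (lift_off hiso hP hQ hl hh hu hue (hMr x hxM) hx).1.symm
    · left
      exact hpn x hxe hxM)
  have hκe : κ e = 0 := k2 e hue heZ
  -- `κ` is `0` or `D` off the range
  have hκD : ∀ x, x ∉ Set.range (Subtype.val : W Q → V) → κ x = 0 ∨ κ x = D x := by
    intro x hx
    obtain ⟨M', hM', hxM'⟩ := (nmem_range_iff Q x).1 hx
    have hxe : x ≠ e := fun h0 => hP.nmem M' (hQ hM') (h0 ▸ hxM')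
    by_cases hxZ : x ∈ Z
    · rw [k1 x hxZ]
      by_cases hxM : x ∈ M
      · exact Or.inr (hpM x hxe hxM)
      · exact Or.inl (hpn x hxe hxM)
    · by_cases hux : u x = 0
      · exact Or.inl (k2 x hux hxZ)
      · rcases k3 x hux with h4 | h4
        · exact Or.inl h4
        · right
          rw [h4]
          exact (lift_off hiso hP hQ hl hh hu hue hx hux).1
  have huh : ∀ M' ∈ Q, u (h M') = 0 := fun M' hM' =>
    eq_zero_h hiso hP hQ hl hh hu.1 (by rw [hue]; rfl) hu.2 hM'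
  have hκh : ∀ M' ∈ Q, M' ≠ M → κ (h M') = 0 := by
    intro M' hM' hne
    have hd : h M' ∉ M := fun h0 =>
      Finset.disjoint_left.1 (hP.disj M' (hQ hM') M (hQ hM) hne) (hh M' hM') h0
    have hxe : h M' ≠ e := fun h0 => hP.nmem M' (hQ hM') (h0 ▸ hh M' hM')
    by_cases hxZ : h M' ∈ Z
    · rw [k1 _ hxZ]
      exact hpn _ hxe hd
    · exact k2 _ (huh M' hM') hxZ
  -- a word which is `0` or `D` off the range and `0` at the marks is a lift
  have hlift : ∀ w : V → K, w ∈ L → (∀ x, x ∉ Set.range (Subtype.val : W Q → V) →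
      w x = 0 ∨ w x = D x) → (∀ M' ∈ Q, w (h M') = 0) → Lift L D Q h w := by
    intro w hw h5 h6
    refine ⟨hw, fun x hx => ?_⟩
    obtain ⟨M', hM', hxM'⟩ := (nmem_range_iff Q x).1 hx
    by_cases hxh : x = h M'
    · rw [hxh, h6 M' hM', kf_zero_left]
    · rcases h5 x hx with h7 | h7
      · rw [h7, kf_zero_left]
      · rw [h7, sg_ne hP hQ hh hM' hxM' hxh]
        exact kf_self _
  have hvhne : D v ≠ 0 := by
    intro h0
    have := hl v hve
    rw [h0] at this
    exact absurd this (by decide)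
  have hκv : κ v = D v := by rw [k1 v hvZ, hpM v hve hvM]
  -- `κ` on the range
  have hκr : ∀ w : W Q, (w : V) ≠ e → κ w = 0 ∨ κ w = u w := by
    intro w hwe
    have hwM : (w : V) ∉ M := w.2 M hM
    by_cases hwZ : (w : V) ∈ Z
    · left
      rw [k1 _ hwZ]
      exact hpn _ hwe hwM
    · by_cases huw : u w = 0
      · exact Or.inl (k2 _ huw hwZ)
      · exact k3 _ huw
  by_cases hκM : κ (h M) = 0
  · exfalso
    have hκL : Lift L D Q h κ := hlift κ hκ hκD (by
      intro M' hM'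
      by_cases hMM : M' = M
      · rw [hMM]; exact hκM
      · exact hκh M' hM' hMM)
    rcases hirr (fun w : W Q => κ w) ⟨κ, hκ, hκL.2, rfl⟩ (by
      intro w
      by_cases hwe : (w : V) = e
      · left
        change κ w = 0
        rw [hwe, hκe]
      · exact hκr w hwe) with h4 | h4
    · have h5 := lift_zero hiso hP hQ hl hh hκL hκe (fun w => congrFun h4 w)
      apply hvhne
      rw [← hκv, h5]
      rfl
    · have h5 := lift_uniq hiso hP hQ hl hh hκL hu hκe hue (fun w => congrFun h4 w)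
      apply hvhne
      rw [← hκv, h5, huv]
  · -- the splitting at `e`
    have hMe : h M ≠ e := fun h0 => hP.nmem M (hQ hM) (h0 ▸ hh M hM)
    have hκhM : κ (h M) = D (h M) := (hκD _ (hMr _ (hh M hM))).resolve_left hκM
    have hpL := hP.word M (hQ hM)
    have hpD : ∀ x, x ∉ Set.range (Subtype.val : W Q → V) → pw D e M x = 0 ∨ pw D e M x = D x := by
      intro x hx
      obtain ⟨M', hM', hxM'⟩ := (nmem_range_iff Q x).1 hx
      have hxe : x ≠ e := fun h0 => hP.nmem M' (hQ hM') (h0 ▸ hxM')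
      by_cases hxM : x ∈ M
      · exact Or.inr (hpM x hxe hxM)
      · exact Or.inl (hpn x hxe hxM)
    have huD : ∀ x, x ∉ Set.range (Subtype.val : W Q → V) → u x = 0 ∨ u x = D x := by
      intro x hx
      by_cases hux : u x = 0
      · exact Or.inl hux
      · exact Or.inr (lift_off hiso hP hQ hl hh hu hue hx hux).1
    have hadd : ∀ a b d : K, (a = 0 ∨ a = d) → (b = 0 ∨ b = d) → (a + b = 0 ∨ a + b = d) := by
      decide
    have hph : ∀ M' ∈ Q, M' ≠ M → pw D e M (h M') = 0 := by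
      intro M' hM' hne
      have hd : h M' ∉ M := fun h0 =>
        Finset.disjoint_left.1 (hP.disj M' (hQ hM') M (hQ hM) hne) (hh M' hM') h0
      exact hpn _ (fun h0 => hP.nmem M' (hQ hM') (h0 ▸ hh M' hM')) hd
    have l1 : Lift L D Q h (κ + pw D e M) := hlift _ (L.add_mem hκ hpL) (by
        intro x hx
        exact hadd _ _ _ (hκD x hx) (hpD x hx)) (by
        intro M' hM'
        by_cases hMM : M' = M
        · rw [hMM, Pi.add_apply, hκhM, hpM _ hMe (hh M hM), k_add_self]
        · rw [Pi.add_apply, hκh M' hM' hMM, hph M' hM' hMM, add_zero])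
    have l2 : Lift L D Q h (u + (κ + pw D e M)) := hu.add l1
    refine ⟨fun w : W Q => (κ + pw D e M) w, ⟨_, l1.1, l1.2, rfl⟩,
      fun w : W Q => (u + (κ + pw D e M)) w, ⟨_, l2.1, l2.2, rfl⟩, ?_, ?_, ?_, ?_⟩
    · funext w
      simp only [Pi.add_apply]
      have h5 : ∀ a b : K, a + (b + a) = b := by decide
      exact h5 _ _
    · change (κ + pw D e M) e = z
      rw [Pi.add_apply, hκe, hpe, zero_add]
    · change (u + (κ + pw D e M)) e = z
      rw [Pi.add_apply, Pi.add_apply, hue, hκe, hpe, zero_add, zero_add]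
    · intro w hw
      have hwe : (w : V) ≠ e := fun h0 => hw (Subtype.ext h0)
      have hwM : (w : V) ∉ M := w.2 M hM
      have hp0 := hpn (w : V) hwe hwM
      rcases hκr w hwe with h5 | h5
      · left
        change (κ + pw D e M) w = 0
        rw [Pi.add_apply, h5, hp0, zero_add]
      · right
        change (u + (κ + pw D e M)) w = 0
        rw [Pi.add_apply, Pi.add_apply, h5, hp0, add_zero, k_add_self]

include hiso hP hQ hl hh in
/-- **the sides of the rooted minor** -/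
theorem rsides {S : (V → K) → Finset V → Prop} (hS : Pool.Agent.H31.Q.Sides L S) :
    Pool.Agent.H77.Q.RSides (N L D Q h) (⟨e, heW⟩ : W Q) (SB L e D Q h S) := by
  classical
  have hzf : ∀ u : V → K, Lift L D Q h u → u e = 0 → ZFree (fun w : W Q => u w) → ZFree u := by
    intro u hu hue hz v
    by_cases hvW : v ∈ Set.range (Subtype.val : W Q → V)
    · obtain ⟨w, rfl⟩ := hvW
      exact hz w
    · by_cases huv : u v = 0
      · rw [huv]; decide
      · obtain ⟨e1, -, e3⟩ := lift_off hiso hP hQ hl hh hu hue hvW huv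
        intro h0
        have h1 := hl v e3
        rw [← e1, h0] at h1
        exact absurd h1 (by decide)
  -- a preimage in `W Q`
  have hpre : ∀ Z : Finset V, (∀ v ∈ Z, v ∈ Set.range (Subtype.val : W Q → V)) →
      ∃ Y : Finset (W Q), ∀ y : W Q, y ∈ Y ↔ (y : V) ∈ Z := by
    intro Z _
    exact ⟨Finset.univ.filter (fun y : W Q => (y : V) ∈ Z), fun y => by simp⟩
  refine ⟨?_, ?_, ?_, ?_, ?_⟩
  · rintro a Y ⟨u, hu, rfl, hue, Z, hSZ, heZ, hZr, hY⟩ h0
    exact heZ ((hY _).1 h0)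
  · rintro a Y ⟨u, hu, rfl, hue, Z, hSZ, heZ, hZr, hY⟩ v hv
    exact (hS.mem u Z hSZ).2 v ((hY v).1 hv)
  · rintro a ⟨u, huL, hus, rfl⟩ haz hae ha0 hirr
    have hu : Lift L D Q h u := ⟨huL, hus⟩
    have hue : u e = 0 := hae
    have hu0 : u ≠ 0 := by
      rintro rfl
      exact ha0 rfl
    by_cases hsp : ∃ g, Splits L u g
    · obtain ⟨g, hg⟩ := hsp
      exact Or.inl (splits_minor hiso hP hQ hl hh heW hu hue hg)
    · obtain ⟨Z, hSZ, heZ⟩ : ∃ Z, S u Z ∧ e ∉ Z := by
        obtain ⟨Z, hZ⟩ := hS.ex u huL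
        by_cases heZ : e ∈ Z
        · obtain ⟨Z', hZ', hZ''⟩ := hS.compl u Z hZ
          exact ⟨Z', hZ', fun h0 => ((hZ'' e).1 h0).2 heZ⟩
        · exact ⟨Z, hZ, heZ⟩
      rcases own_in (heW := heW) hiso hP hQ hl hh hS hu hue hirr hSZ heZ with h1 | h1
      · right
        obtain ⟨Y, hY⟩ := hpre Z h1
        refine ⟨Y, ?_, u, hu, rfl, hue, Z, hSZ, heZ, h1, hY⟩
        by_contra hne
        rw [Finset.not_nonempty_iff_eq_empty] at hne
        have hZ0 : Z = ∅ := by
          rw [Finset.eq_empty_iff_forall_notMem]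
          intro v hv
          obtain ⟨w, rfl⟩ := h1 v hv
          have := (hY w).2 hv
          rw [hne] at this
          simp at this
        rw [hZ0] at hSZ
        exact hsp (hS.wc u hSZ (hzf u hu hue haz) hu0)
      · exact Or.inl ⟨_, h1⟩
  · rintro a Y ⟨u, hu, rfl, hue, Z, hSZ, heZ, hZr, hY⟩ k ⟨k₀, hk₀, hks, rfl⟩ hle
    -- `k₀ ≤ u` on the support of `u`
    have hk₀' : Lift L D Q h k₀ := ⟨hk₀, hks⟩
    have h1 := lift_le hiso hP hQ hl hh hu hue hk₀' hle
    obtain ⟨k', hk', e1, e2, e3, -, -⟩ := hS.part u Z hSZ k₀ hk₀ h1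
    have hk'L := lift_part hu hZr hk' e2 e3
    refine ⟨fun w : W Q => k' w, ⟨k', hk', hk'L.2, rfl⟩, ?_, ?_, ?_⟩
    · intro v hv
      exact e1 v ((hY v).1 hv)
    · intro v hv hvY
      exact e2 v hv (fun h0 => hvY ((hY v).2 h0))
    · intro v hv
      exact e3 v hv
  · rintro a Y ⟨u, hu, rfl, hue, Z, hSZ, heZ, hZr, hY⟩ hirr k ⟨k₀, hk₀, hks, rfl⟩ hkz hk0 _ hle hoff
    have hk₀' : Lift L D Q h k₀ := ⟨hk₀, hks⟩
    have heY : (⟨e, heW⟩ : W Q) ∉ Y := fun h0 => heZ ((hY _).1 h0)
    have hke : k₀ e = 0 := hoff ⟨e, heW⟩ hue heY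
    have h1 := lift_le hiso hP hQ hl hh hu hue hk₀' hle
    obtain ⟨k', hk', e1, e2, e3, ⟨Z₁, hZ₁, hS₁⟩, Z₂, hZ₂, hS₂⟩ := hS.part u Z hSZ k₀ hk₀ h1
    have hk'L := lift_part hu hZr hk' e2 e3
    have hk'e : k' e = 0 := e2 e hue heZ
    obtain ⟨Z', hZ'sub, hSZ'⟩ : ∃ Z' ⊆ Z, S k₀ Z' := by
      rcases hirr (fun w : W Q => (k₀ + k') w) ⟨k₀ + k', L.add_mem hk₀ hk', (hk₀'.add hk'L).2, rfl⟩
        (by
          intro w
          change (k₀ + k') w = 0 ∨ (k₀ + k') w = u w
          by_cases hw : u w = 0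
          · left
            by_cases hwZ : (w : V) ∈ Z
            · rw [Pi.add_apply, e1 _ hwZ, k_add_self]
            · have h5 : k₀ w = 0 := hoff w hw (fun h0 => hwZ ((hY w).1 h0))
              rw [Pi.add_apply, h5, e2 _ hw hwZ, add_zero]
          · have h5 : k₀ w = 0 ∨ k₀ w = u w := hle w hw
            rcases h5 with h5 | h5 <;> rcases e3 _ hw with h6 | h6 <;> rw [Pi.add_apply, h5, h6]
            · exact Or.inl (add_zero _)
            · exact Or.inr (zero_add _)
            · exact Or.inr (add_zero _)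
            · exact Or.inl (k_add_self _)) with h5 | h5
      · refine ⟨Z₁, hZ₁, ?_⟩
        have h6 : k₀ = k' := by
          refine lift_uniq hiso hP hQ hl hh hk₀' hk'L hke hk'e (fun w => ?_)
          have h7 := congrFun h5 w
          simp only [Pi.add_apply, Pi.zero_apply] at h7
          have h8 : ∀ a b : K, a + b = 0 → a = b := by decide
          exact h8 _ _ h7
        rw [h6]
        exact hS₁
      · refine ⟨Z₂, hZ₂, ?_⟩
        have h6 : k₀ = k' + u := by
          refine lift_uniq hiso hP hQ hl hh hk₀' (hk'L.add hu) hke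
            (by rw [Pi.add_apply, hk'e, hue, add_zero]) (fun w => ?_)
          have h7 := congrFun h5 w
          simp only [Pi.add_apply] at h7 ⊢
          have h8 : ∀ a b c : K, a + b = c → a = b + c := by decide
          exact h8 _ _ _ h7
        rw [h6]
        exact hS₂
    have hr' : ∀ v ∈ Z', v ∈ Set.range (Subtype.val : W Q → V) := fun v hv => hZr v (hZ'sub hv)
    obtain ⟨Y', hY'⟩ := hpre Z' hr'
    by_cases hne : Z' = ∅
    · left
      rw [hne] at hSZ'
      have hk₀0 : k₀ ≠ 0 := by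
        rintro rfl
        exact hk0 rfl
      obtain ⟨g, hg⟩ := hS.wc k₀ hSZ' (hzf k₀ hk₀' hke hkz) hk₀0
      exact splits_minor hiso hP hQ hl hh heW hk₀' hke hg
    · right
      refine ⟨Y', fun y hy => (hY y).2 (hZ'sub ((hY' y).1 hy)), ?_, k₀, hk₀', rfl, hke, Z', hSZ',
        fun h0 => heZ (hZ'sub h0), hr', hY'⟩
      obtain ⟨v, hv⟩ := Finset.nonempty_iff_ne_empty.2 hne
      obtain ⟨w, rfl⟩ := hr' v hv
      exact ⟨w, (hY' w).2 hv⟩

end

end Pool.Agent.H84.Q
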